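import Pool.Agent.V11294.FP.Basic

/-!
# The average of the fourth moment
-/

set_option autoImplicit false

namespace Pool.Agent.V11294.FP

open Finset

lemma mem_PP {K s : ℕ} {p : ℕ × ℕ} : p ∈ PP K s ↔
    (1 ≤ p.1 ∧ p.1 ≤ K) ∧ (1 ≤ p.2 ∧ p.2 ≤ K) ∧ p.1 + p.2 = s := by
  unfold PP
  rw [mem_filter, mem_product, mem_Icc, mem_Icc]
  tauto

lemma W_nonneg {K s : ℕ} {p : ℕ × ℕ} (hp : p ∈ PP K s) : 0 ≤ W K p := by
  rw [mem_PP] at hp
  exact mul_nonneg (w_nonneg _ _ hp.1.2) (w_nonneg _ _ hp.2.1.2)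

lemma W_le {K s : ℕ} (hK : 1 ≤ K) {p : ℕ × ℕ} (hp : p ∈ PP K s) : W K p ≤ 4 / (K : ℝ) ^ 2 := by
  rw [mem_PP] at hp
  have h1 := w_le K p.1 hK hp.1.1
  have h2 := w_le K p.2 hK hp.2.1.1
  have h3 := w_nonneg K p.2 hp.2.1.2
  have h4 : (0 : ℝ) ≤ 2 / K := by positivity
  unfold W
  calc w K p.1 * w K p.2 ≤ (2 / K) * (2 / K) := mul_le_mul h1 h2 h3 h4
    _ = 4 / (K : ℝ) ^ 2 := by
      rw [div_mul_div_comm]
      norm_num
      rw [pow_two]

lemma swap_mem {K s : ℕ} {p : ℕ × ℕ} (hp : p ∈ PP K s) : p.swap ∈ PP K s := by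
  rw [mem_PP] at hp ⊢
  simp only [Prod.fst_swap, Prod.snd_swap]
  refine ⟨hp.2.1, hp.1, by omega⟩

lemma AA_eq {K s : ℕ} {p p' : ℕ × ℕ} (hp : p ∈ PP K s) (hp' : p' ∈ PP K s)
    (h : AA K p' = AA K p) : p' = p ∨ p' = p.swap := by
  obtain ⟨a, b⟩ := p
  obtain ⟨c, d⟩ := p'
  rw [mem_PP] at hp hp'
  simp only [AA] at h
  dsimp only at hp hp' h
  obtain ⟨⟨ha1, ha2⟩, ⟨hb1, hb2⟩, hs⟩ := hp
  obtain ⟨⟨hc1, hc2⟩, ⟨hd1, hd2⟩, hs'⟩ := hp'
  have e1 := aa_mul K a ha1 ha2
  have e2 := aa_mul K b hb1 hb2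
  have e3 := aa_mul K c hc1 hc2
  have e4 := aa_mul K d hd1 hd2
  have f1 : (aa K a + aa K b) * (a * b) = K.factorial * s := by
    calc (aa K a + aa K b) * (a * b) = (aa K a * a) * b + (aa K b * b) * a := by ring
      _ = K.factorial * (a + b) := by rw [e1, e2]; ring
      _ = _ := by rw [hs]
  have f2 : (aa K c + aa K d) * (c * d) = K.factorial * s := by
    calc (aa K c + aa K d) * (c * d) = (aa K c * c) * d + (aa K d * d) * c := by ring
      _ = K.factorial * (c + d) := by rw [e3, e4]; ring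
      _ = _ := by rw [hs']
  have hpos : 0 < aa K a + aa K b := by
    have := aa_pos K a ha1 ha2
    omega
  rw [h, ← f1] at f2
  have f3 : c * d = a * b := Nat.eq_of_mul_eq_mul_left hpos f2
  have f4 : ((a : ℤ) - c) * ((a : ℤ) - d) = 0 := by
    have g1 : (c : ℤ) * d = a * b := by exact_mod_cast f3
    have g2 : (c : ℤ) + d = a + b := by
      have : c + d = a + b := by omega
      exact_mod_cast this
    have g3 : ((a : ℤ) - c) * ((a : ℤ) - d) = a * a - a * (c + d) + c * d := by ring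
    rw [g3, g1, g2]
    ring
  rcases mul_eq_zero.1 f4 with g | g
  · left
    have : a = c := by omega
    subst this
    have : b = d := by omega
    subst this
    rfl
  · right
    have : a = d := by omega
    subst this
    have : b = c := by omega
    subst this
    rfl

lemma sum_W_all (K : ℕ) (hK : 1 ≤ K) : ∑ s ∈ range (2 * K + 1), ∑ p ∈ PP K s, W K p = 1 := by
  unfold PP
  have h3 : ∀ p ∈ Icc 1 K ×ˢ Icc 1 K, p.1 + p.2 ∈ range (2 * K + 1) := by
    intro p hp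
    rw [mem_product, mem_Icc, mem_Icc] at hp
    rw [mem_range]
    omega
  rw [sum_fiberwise_of_maps_to h3]
  unfold W
  rw [sum_product, ← sum_mul_sum, sum_w K hK, one_mul]

lemma sum_W_le (K : ℕ) (hK : 1 ≤ K) (s : ℕ) : ∑ p ∈ PP K s, W K p ≤ 1 := by
  by_cases hs : s ∈ range (2 * K + 1)
  · rw [← sum_W_all K hK]
    exact single_le_sum (f := fun s => ∑ p ∈ PP K s, W K p)
      (fun s _ => sum_nonneg fun p hp => W_nonneg hp) hs
  · have : PP K s = ∅ := by
      rw [Finset.eq_empty_iff_forall_notMem]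
      intro p hp
      rw [mem_PP] at hp
      apply hs
      rw [mem_range]
      omega
    rw [this, sum_empty]
    norm_num

/-- the second moment of `bb` -/
lemma bb_avg (K : ℕ) (hK : 1 ≤ K) (s L : ℕ) (ξ κ : ℝ) (hκ : 0 < κ)
    (hmin : ∀ c : ℤ, c ≠ 0 → |c| ≤ 2 * (K.factorial : ℤ) → κ ≤ nn (c * ξ)) :
    ∑ l ∈ Icc 1 L, ‖bb K s (l * ξ)‖ ^ 2 ≤
      (∑ p ∈ PP K s, W K p) * (L * (8 / (K : ℝ) ^ 2)) + (∑ p ∈ PP K s, W K p) * (1 / κ) := by
  classical
  have hsum : ((∑ l ∈ Icc 1 L, ‖bb K s (l * ξ)‖ ^ 2 : ℝ) : ℂ) =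
      ∑ p ∈ PP K s, ∑ p' ∈ PP K s, ((W K p * W K p' : ℝ) : ℂ) *
        ∑ l ∈ Icc 1 L, e (l * ((((AA K p : ℤ) - (AA K p' : ℤ) : ℤ) : ℝ) * ξ)) := by
    push_cast
    have h1 : ∀ l : ℕ, ((‖bb K s (l * ξ)‖ : ℂ)) ^ 2 = ∑ p ∈ PP K s, ∑ p' ∈ PP K s,
        (((W K p : ℂ)) * (W K p' : ℂ)) * e (l * (((AA K p : ℝ) - (AA K p' : ℝ)) * ξ)) := by
      intro l
      rw [← Complex.mul_conj']
      unfold bb
      rw [map_sum, sum_mul_sum]
      refine sum_congr rfl fun p _ => sum_congr rfl fun p' _ => ?_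
      rw [map_mul, Complex.conj_ofReal, e_conj]
      rw [show (l : ℝ) * (((AA K p : ℝ) - (AA K p' : ℝ)) * ξ) =
        AA K p * (l * ξ) + -(AA K p' * (l * ξ)) by ring, e_add]
      ring
    rw [sum_congr rfl fun l _ => h1 l, sum_comm]
    refine sum_congr rfl fun p _ => ?_
    rw [sum_comm]
    refine sum_congr rfl fun p' _ => ?_
    rw [mul_sum]
  have hnn : 0 ≤ ∑ l ∈ Icc 1 L, ‖bb K s (l * ξ)‖ ^ 2 := sum_nonneg fun _ _ => by positivity
  have h2 : ∑ l ∈ Icc 1 L, ‖bb K s (l * ξ)‖ ^ 2 =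
      ‖((∑ l ∈ Icc 1 L, ‖bb K s (l * ξ)‖ ^ 2 : ℝ) : ℂ)‖ := by
    rw [Complex.norm_real, Real.norm_eq_abs, abs_of_nonneg hnn]
  rw [h2, hsum]
  have h3 : ∀ p ∈ PP K s, ∀ p' ∈ PP K s,
      ‖((W K p * W K p' : ℝ) : ℂ) *
        ∑ l ∈ Icc 1 L, e (l * ((((AA K p : ℤ) - (AA K p' : ℤ) : ℤ) : ℝ) * ξ))‖ ≤
      W K p * (if AA K p' = AA K p then W K p' * L else 0) + W K p * (W K p' * (1 / κ)) := by
    intro p hp p' hp'
    have hW := W_nonneg hp
    have hW' := W_nonneg hp'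
    rw [norm_mul, Complex.norm_real, Real.norm_eq_abs, abs_of_nonneg (mul_nonneg hW hW')]
    have hk : 0 ≤ 1 / κ := by positivity
    split_ifs with hA
    · have h4 : ‖∑ l ∈ Icc 1 L, e (l * ((((AA K p : ℤ) - (AA K p' : ℤ) : ℤ) : ℝ) * ξ))‖ ≤ L := by
        refine (norm_sum_le _ _).trans (le_of_eq ?_)
        rw [sum_congr rfl fun l _ => norm_e _, sum_const, Nat.card_Icc]
        simp
      calc W K p * W K p' * ‖∑ l ∈ Icc 1 L, e (l * ((((AA K p : ℤ) - (AA K p' : ℤ) : ℤ) : ℝ) * ξ))‖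
          ≤ W K p * W K p' * L := mul_le_mul_of_nonneg_left h4 (mul_nonneg hW hW')
        _ ≤ W K p * (W K p' * L) + W K p * (W K p' * (1 / κ)) := by
          have := mul_nonneg hW (mul_nonneg hW' hk)
          linarith
    · have h4 := geom_bound L (((((AA K p : ℤ) - (AA K p' : ℤ) : ℤ) : ℝ)) * ξ) κ hκ (by
        apply hmin
        · intro h
          apply hA
          have : (AA K p' : ℤ) = AA K p := by linarith
          exact_mod_cast this
        · have a1 : (AA K p : ℤ) ≤ 2 * (K.factorial : ℤ) := by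
            have : AA K p ≤ 2 * K.factorial := by
              unfold AA
              have := aa_le K p.1
              have := aa_le K p.2
              omega
            exact_mod_cast this
          have a2 : (AA K p' : ℤ) ≤ 2 * (K.factorial : ℤ) := by
            have : AA K p' ≤ 2 * K.factorial := by
              unfold AA
              have := aa_le K p'.1
              have := aa_le K p'.2
              omega
            exact_mod_cast this
          rw [abs_le]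
          constructor
          · have : (0 : ℤ) ≤ AA K p := by positivity
            linarith
          · have : (0 : ℤ) ≤ AA K p' := by positivity
            linarith)
      calc W K p * W K p' * ‖∑ l ∈ Icc 1 L, e (l * ((((AA K p : ℤ) - (AA K p' : ℤ) : ℤ) : ℝ) * ξ))‖
          ≤ W K p * W K p' * (1 / κ) := mul_le_mul_of_nonneg_left h4 (mul_nonneg hW hW')
        _ = W K p * 0 + W K p * (W K p' * (1 / κ)) := by ring
  refine (norm_sum_le _ _).trans ?_
  refine (sum_le_sum fun p hp => (norm_sum_le _ _).trans (sum_le_sum fun p' hp' => h3 p hp p' hp')).trans ?_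
  rw [sum_mul, sum_mul, ← sum_add_distrib]
  refine sum_le_sum fun p hp => ?_
  rw [sum_add_distrib, ← mul_sum, ← mul_sum, ← sum_mul]
  have hW := W_nonneg hp
  have h5 : ∑ p' ∈ PP K s, (if AA K p' = AA K p then W K p' * (L : ℝ) else 0) ≤
      L * (8 / (K : ℝ) ^ 2) := by
    rw [← sum_filter]
    have hsub : (PP K s).filter (fun p' => AA K p' = AA K p) ⊆ {p, p.swap} := by
      intro p' hp'
      rw [mem_filter] at hp'
      rw [mem_insert, mem_singleton]
      exact AA_eq hp hp'.1 hp'.2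
    calc ∑ p' ∈ (PP K s).filter (fun p' => AA K p' = AA K p), W K p' * (L : ℝ)
        ≤ ∑ p' ∈ (PP K s).filter (fun p' => AA K p' = AA K p), (4 / (K : ℝ) ^ 2) * L := by
          refine sum_le_sum fun p' hp' => ?_
          exact mul_le_mul_of_nonneg_right (W_le hK (mem_filter.1 hp').1) (Nat.cast_nonneg L)
      _ = (((PP K s).filter (fun p' => AA K p' = AA K p)).card : ℝ) * ((4 / (K : ℝ) ^ 2) * L) := by
          rw [sum_const, nsmul_eq_mul]
      _ ≤ 2 * ((4 / (K : ℝ) ^ 2) * L) := by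
          apply mul_le_mul_of_nonneg_right _ (by positivity)
          have := (card_le_card hsub).trans (card_le_two)
          exact_mod_cast this
      _ = L * (8 / (K : ℝ) ^ 2) := by ring
  have h6 : (∑ p' ∈ PP K s, W K p') * (1 / κ) ≤ 1 / κ := by
    have := mul_le_mul_of_nonneg_right (sum_W_le K hK s) (by positivity : (0 : ℝ) ≤ 1 / κ)
    linarith
  exact add_le_add (mul_le_mul_of_nonneg_left h5 hW) (mul_le_mul_of_nonneg_left h6 hW)

lemma G_avg (K : ℕ) (hK : 1 ≤ K) (L : ℕ) (ξ κ : ℝ) (hκ : 0 < κ)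
    (hmin : ∀ c : ℤ, c ≠ 0 → |c| ≤ 2 * (K.factorial : ℤ) → κ ≤ nn (c * ξ)) :
    ∑ l ∈ Icc 1 L, G K (l * ξ) ≤ L * (8 / (K : ℝ) ^ 2) + 1 / κ := by
  unfold G
  rw [sum_comm]
  refine (sum_le_sum fun s _ => bb_avg K hK s L ξ κ hκ hmin).trans (le_of_eq ?_)
  rw [sum_add_distrib, ← sum_mul, ← sum_mul, sum_W_all K hK, one_mul, one_mul]

end Pool.Agent.V11294.FP
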