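import Mathlib

/-!
# Products of coordinates of differences: exponential sums over the points `(K!/i, i)`
-/

set_option autoImplicit false

namespace Pool.Agent.V11294.FP

open Finset

/-- `e(x) = exp(2 pi i x)` -/
noncomputable def e (x : ℝ) : ℂ := Complex.exp (Complex.I * ((2 * Real.pi * x : ℝ) : ℂ))

lemma e_zero : e 0 = 1 := by simp [e]

lemma e_add (x y : ℝ) : e (x + y) = e x * e y := by
  unfold e
  rw [← Complex.exp_add]
  congr 1
  push_cast
  ring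

lemma norm_e (x : ℝ) : ‖e x‖ = 1 := by
  unfold e
  rw [mul_comm]
  exact Complex.norm_exp_ofReal_mul_I _

lemma e_int (n : ℤ) : e (n : ℝ) = 1 := by
  unfold e
  rw [Complex.exp_eq_one_iff]
  exact ⟨n, by push_cast; ring⟩

lemma e_conj (x : ℝ) : (starRingEnd ℂ) (e x) = e (-x) := by
  unfold e
  rw [← Complex.exp_conj]
  congr 1
  simp only [map_mul, Complex.conj_I, Complex.conj_ofReal]
  push_cast
  ring

lemma e_re (x : ℝ) : (e x).re = Real.cos (2 * Real.pi * x) := by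
  unfold e
  rw [mul_comm, Complex.exp_ofReal_mul_I_re]

lemma e_nat_mul (n : ℕ) (x : ℝ) : e (n * x) = e x ^ n := by
  unfold e
  rw [← Complex.exp_nat_mul]
  congr 1
  push_cast
  ring

lemma norm_e_sub_one (x : ℝ) : ‖e x - 1‖ = 2 * |Real.sin (Real.pi * x)| := by
  unfold e
  rw [Complex.norm_exp_I_mul_ofReal_sub_one, norm_mul, Real.norm_eq_abs, Real.norm_eq_abs]
  rw [show 2 * Real.pi * x / 2 = Real.pi * x by ring]
  norm_num

lemma norm_e_sub_one_le (x : ℝ) : ‖e x - 1‖ ≤ 7 * |x| := by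
  rw [norm_e_sub_one]
  have h1 : |Real.sin (Real.pi * x)| ≤ |Real.pi * x| := Real.abs_sin_le_abs
  rw [abs_mul, abs_of_pos Real.pi_pos] at h1
  have h2 : Real.pi < 3.5 := by linarith [Real.pi_lt_d2]
  nlinarith [abs_nonneg x]

/-- distance to the nearest integer -/
noncomputable def nn (x : ℝ) : ℝ := |x - round x|

lemma nn_nonneg (x : ℝ) : 0 ≤ nn x := abs_nonneg _

lemma e_round (x : ℝ) : e x = e (x - round x) := by
  have h : x = (x - round x) + ((round x : ℤ) : ℝ) := by ring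
  conv_lhs => rw [h]
  rw [e_add, e_int, mul_one]

lemma nn_le (x : ℝ) (n : ℤ) : nn x ≤ |x - n| := round_le x n

lemma nn_int_mul (c : ℤ) (x : ℝ) : nn (c * x) ≤ |(c : ℝ)| * nn x := by
  refine (nn_le _ (c * round x)).trans (le_of_eq ?_)
  unfold nn
  rw [← abs_mul]
  congr 1
  push_cast
  ring

lemma four_nn_le (x : ℝ) : 4 * nn x ≤ ‖e x - 1‖ := by
  rw [e_round, norm_e_sub_one]
  set r := x - round x with hr
  have h1 : |r| ≤ 1 / 2 := abs_sub_round x
  have h2 : nn x = |r| := rfl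
  rw [h2]
  have h3 : 2 / Real.pi * (Real.pi * |r|) ≤ Real.sin (Real.pi * |r|) := by
    apply Real.mul_le_sin
    · have := Real.pi_pos
      positivity
    · have := Real.pi_pos
      nlinarith
  have h4 : 2 / Real.pi * (Real.pi * |r|) = 2 * |r| := by
    have := Real.pi_pos.ne'
    field_simp
  have h5 : Real.sin (Real.pi * |r|) ≤ |Real.sin (Real.pi * r)| := by
    rcases abs_cases r with ⟨h, _⟩ | ⟨h, _⟩
    · rw [h]; exact le_abs_self _
    · rw [h, mul_neg, Real.sin_neg]; exact neg_le_abs _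
  rw [h4] at h3
  linarith

/-- geometric sums -/
lemma geom_bound (L : ℕ) (x κ : ℝ) (hκ : 0 < κ) (hx : κ ≤ nn x) :
    ‖∑ l ∈ Icc 1 L, e (l * x)‖ ≤ 1 / κ := by
  have h1 : 4 * κ ≤ ‖e x - 1‖ := le_trans (by linarith) (four_nn_le x)
  have hne : e x - 1 ≠ 0 := by
    intro h
    rw [h, norm_zero] at h1
    linarith
  have h2 : ∑ l ∈ Icc 1 L, e (l * x) = e x * ((e x ^ L - 1) / (e x - 1)) := by
    have h3 : ∑ l ∈ Icc 1 L, e (l * x) = ∑ l ∈ range L, e x ^ (l + 1) := by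
      rw [Finset.range_eq_Ico, Finset.sum_Ico_add' (fun l => e x ^ l) 0 L 1]
      rw [show Finset.Ico (0 + 1) (L + 1) = Icc 1 L by ext n; simp only [mem_Ico, mem_Icc]; omega]
      exact sum_congr rfl fun l _ => e_nat_mul l x
    rw [h3]
    simp_rw [pow_succ]
    rw [← sum_mul, geom_sum_eq (sub_ne_zero.1 hne)]
    ring
  rw [h2, norm_mul, norm_e, one_mul, norm_div]
  have h4 : ‖e x ^ L - 1‖ ≤ 2 := by
    refine (norm_sub_le _ _).trans ?_
    rw [norm_pow, norm_e, one_pow, norm_one]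
    norm_num
  rw [div_le_div_iff₀ (by linarith) hκ]
  nlinarith

/-! ### weights -/

noncomputable def w (K i : ℕ) : ℝ := 2 * ((K : ℝ) + 1 - i) / (K * (K + 1))

lemma w_nonneg (K i : ℕ) (hi : i ≤ K) : 0 ≤ w K i := by
  unfold w
  have : (i : ℝ) ≤ K := by exact_mod_cast hi
  have h0 : (0 : ℝ) ≤ K := Nat.cast_nonneg K
  apply div_nonneg
  · linarith
  · positivity

lemma w_le (K i : ℕ) (hK : 1 ≤ K) (hi : 1 ≤ i) : w K i ≤ 2 / K := by
  unfold w
  have : (1 : ℝ) ≤ i := by exact_mod_cast hi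
  have h0 : (1 : ℝ) ≤ K := by exact_mod_cast hK
  rw [div_le_div_iff₀ (by positivity) (by positivity)]
  nlinarith [mul_nonneg (by linarith : (0 : ℝ) ≤ K) (by linarith : (0 : ℝ) ≤ (i : ℝ))]

lemma sum_arith (K : ℕ) : ∑ i ∈ Icc 1 K, ((K : ℝ) + 1 - i) = K * (K + 1) / 2 := by
  have h : ∀ n : ℕ, ∑ i ∈ Icc 1 n, (i : ℝ) = n * (n + 1) / 2 := by
    intro n
    induction n with
    | zero => simp
    | succ n ih =>
      rw [Finset.sum_Icc_succ_top (by omega), ih]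
      push_cast
      ring
  rw [sum_sub_distrib, h, sum_const, Nat.card_Icc]
  simp only [nsmul_eq_mul, Nat.add_sub_cancel]
  ring

lemma sum_w (K : ℕ) (hK : 1 ≤ K) : ∑ i ∈ Icc 1 K, w K i = 1 := by
  unfold w
  have h0 : (1 : ℝ) ≤ K := by exact_mod_cast hK
  rw [← sum_div, ← mul_sum, sum_arith]
  field_simp

/-- the Fejer identity -/
lemma fejer (K : ℕ) (θ : ℝ) : ‖∑ j ∈ range (K + 1), e (j * θ)‖ ^ 2 =
    ((K : ℝ) + 1) + 2 * ∑ i ∈ Icc 1 K, ((K : ℝ) + 1 - i) * Real.cos (2 * Real.pi * (i * θ)) := by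
  induction K with
  | zero => simp [e_zero]
  | succ K ih =>
    have h1 : ‖∑ j ∈ range (K + 1 + 1), e (j * θ)‖ ^ 2 =
        ‖∑ j ∈ range (K + 1), e (j * θ)‖ ^ 2 + 1 +
          2 * ∑ i ∈ Icc 1 (K + 1), Real.cos (2 * Real.pi * (i * θ)) := by
      rw [sum_range_succ]
      have h2 : ∀ z u : ℂ, ‖z + u‖ ^ 2 = ‖z‖ ^ 2 + ‖u‖ ^ 2 + 2 * ((starRingEnd ℂ) z * u).re := by
        intro z u
        rw [← Complex.normSq_eq_norm_sq, ← Complex.normSq_eq_norm_sq, ← Complex.normSq_eq_norm_sq,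
          Complex.normSq_add]
        congr 2
        simp [Complex.mul_re]
      rw [h2, norm_e]
      have h3 : ((starRingEnd ℂ) (∑ j ∈ range (K + 1), e (j * θ)) * e ((K + 1 : ℕ) * θ)).re =
          ∑ i ∈ Icc 1 (K + 1), Real.cos (2 * Real.pi * (i * θ)) := by
        rw [map_sum, sum_mul, Complex.re_sum]
        rw [← Finset.sum_range_reflect]
        rw [show Icc 1 (K + 1) = Finset.Ico (0 + 1) (K + 1 + 1) by
          ext n; simp only [mem_Ico, mem_Icc]; omega]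
        rw [← Finset.sum_Ico_add' (fun i : ℕ => Real.cos (2 * Real.pi * (i * θ))) 0 (K + 1) 1,
          ← Finset.range_eq_Ico]
        refine sum_congr rfl fun j hj => ?_
        rw [mem_range] at hj
        rw [e_conj, ← e_add, e_re]
        congr 2
        have : ((K + 1 - 1 - j : ℕ) : ℝ) = K - j := by
          rw [Nat.add_sub_cancel, Nat.cast_sub (by omega)]
        rw [this]
        push_cast
        ring
      rw [h3]
      ring
    rw [h1, ih]
    have h4 : ∑ i ∈ Icc 1 (K + 1), (((K + 1 : ℕ) : ℝ) + 1 - i) * Real.cos (2 * Real.pi * (i * θ)) =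
        ∑ i ∈ Icc 1 K, ((K : ℝ) + 1 - i) * Real.cos (2 * Real.pi * (i * θ)) +
        ∑ i ∈ Icc 1 (K + 1), Real.cos (2 * Real.pi * (i * θ)) := by
      rw [Finset.sum_Icc_succ_top (by omega), Finset.sum_Icc_succ_top (by omega), ← add_assoc,
        ← sum_add_distrib]
      push_cast
      congr 1
      · refine sum_congr rfl fun i _ => ?_
        ring
      · ring
    rw [h4]
    push_cast
    ring

/-- `K! / i` -/
def aa (K i : ℕ) : ℕ := K.factorial / i

lemma aa_mul (K i : ℕ) (h1 : 1 ≤ i) (h2 : i ≤ K) : aa K i * i = K.factorial :=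
  Nat.div_mul_cancel (Nat.dvd_factorial h1 h2)

lemma aa_le (K i : ℕ) : aa K i ≤ K.factorial := Nat.div_le_self _ _

lemma aa_pos (K i : ℕ) (h1 : 1 ≤ i) (h2 : i ≤ K) : 0 < aa K i := by
  have h := aa_mul K i h1 h2
  have := Nat.factorial_pos K
  rcases Nat.eq_zero_or_pos (aa K i) with h0 | h0
  · rw [h0, zero_mul] at h; omega
  · exact h0

/-- the exponential sum -/
noncomputable def q (K : ℕ) (τ θ : ℝ) : ℂ :=
  ∑ i ∈ Icc 1 K, (w K i : ℂ) * e (i * θ + aa K i * τ)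

lemma norm_q_le (K : ℕ) (hK : 1 ≤ K) (τ θ : ℝ) : ‖q K τ θ‖ ≤ 1 := by
  unfold q
  refine (norm_sum_le _ _).trans (le_of_eq ?_)
  rw [← sum_w K hK]
  refine sum_congr rfl fun i hi => ?_
  rw [norm_mul, norm_e, mul_one, Complex.norm_real, Real.norm_eq_abs,
    abs_of_nonneg (w_nonneg K i (mem_Icc.1 hi).2)]

/-- lower bound when all `K!/i * τ` are close to integers -/
lemma q_struct (K : ℕ) (hK : 1 ≤ K) (τ θ ε : ℝ)
    (h : ∀ i : ℕ, 1 ≤ i → i ≤ K → ‖e (aa K i * τ) - 1‖ ≤ ε) :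
    -(1 / (K : ℝ) + ε) ≤ (q K τ θ).re := by
  have h0 : (1 : ℝ) ≤ K := by exact_mod_cast hK
  have h1 : -(1 / (K : ℝ)) ≤ (∑ i ∈ Icc 1 K, (w K i : ℂ) * e (i * θ)).re := by
    rw [Complex.re_sum]
    have h2 : ∀ i ∈ Icc 1 K, ((w K i : ℂ) * e (i * θ)).re =
        2 / (K * (K + 1)) * (((K : ℝ) + 1 - i) * Real.cos (2 * Real.pi * (i * θ))) := by
      intro i _
      rw [Complex.re_ofReal_mul, e_re]
      unfold w
      ring
    rw [sum_congr rfl h2, ← mul_sum]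
    have h3 := fejer K θ
    have h4 : 0 ≤ ‖∑ j ∈ range (K + 1), e (j * θ)‖ ^ 2 := by positivity
    rw [h3] at h4
    set S := ∑ i ∈ Icc 1 K, ((K : ℝ) + 1 - i) * Real.cos (2 * Real.pi * (i * θ)) with hS
    have h5 : -(1 / (K : ℝ)) = 2 / (K * (K + 1)) * (-((K : ℝ) + 1) / 2) := by
      field_simp
    rw [h5]
    apply mul_le_mul_of_nonneg_left _ (by positivity)
    linarith
  have h2 : ‖q K τ θ - ∑ i ∈ Icc 1 K, (w K i : ℂ) * e (i * θ)‖ ≤ ε := by
    unfold q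
    rw [← sum_sub_distrib]
    refine (norm_sum_le _ _).trans ?_
    calc ∑ i ∈ Icc 1 K, ‖(w K i : ℂ) * e (i * θ + aa K i * τ) - (w K i : ℂ) * e (i * θ)‖
        ≤ ∑ i ∈ Icc 1 K, w K i * ε := by
          refine sum_le_sum fun i hi => ?_
          rw [mem_Icc] at hi
          rw [e_add, show (w K i : ℂ) * (e (i * θ) * e (aa K i * τ)) - (w K i : ℂ) * e (i * θ) =
            (w K i : ℂ) * (e (i * θ) * (e (aa K i * τ) - 1)) by ring, norm_mul, norm_mul, norm_e,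
            one_mul, Complex.norm_real, Real.norm_eq_abs, abs_of_nonneg (w_nonneg K i hi.2)]
          exact mul_le_mul_of_nonneg_left (h i hi.1 hi.2) (w_nonneg K i hi.2)
      _ = ε := by rw [← sum_mul, sum_w K hK, one_mul]
  have h3 := Complex.abs_re_le_norm (q K τ θ - ∑ i ∈ Icc 1 K, (w K i : ℂ) * e (i * θ))
  rw [Complex.sub_re] at h3
  have h4 := (abs_le.1 (h3.trans h2)).1
  linarith

/-! ### the fourth power bound -/

/-- the pairs with sum `s` -/
def PP (K s : ℕ) : Finset (ℕ × ℕ) := (Icc 1 K ×ˢ Icc 1 K).filter (fun p => p.1 + p.2 = s)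

noncomputable def W (K : ℕ) (p : ℕ × ℕ) : ℝ := w K p.1 * w K p.2

def AA (K : ℕ) (p : ℕ × ℕ) : ℕ := aa K p.1 + aa K p.2

noncomputable def bb (K s : ℕ) (τ : ℝ) : ℂ := ∑ p ∈ PP K s, (W K p : ℂ) * e (AA K p * τ)

noncomputable def G (K : ℕ) (τ : ℝ) : ℝ := ∑ s ∈ range (2 * K + 1), ‖bb K s τ‖ ^ 2

lemma q_pow_four (K : ℕ) (τ θ : ℝ) : ‖q K τ θ‖ ^ 4 ≤ (2 * K + 1) * G K τ := by
  have h1 : q K τ θ ^ 2 = ∑ s ∈ range (2 * K + 1), bb K s τ * e (s * θ) := by
    have h2 : q K τ θ ^ 2 = ∑ p ∈ Icc 1 K ×ˢ Icc 1 K,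
        (W K p : ℂ) * e (AA K p * τ) * e (((p.1 + p.2 : ℕ) : ℝ) * θ) := by
      rw [pow_two]
      unfold q
      rw [sum_mul_sum, ← sum_product']
      refine sum_congr rfl fun p _ => ?_
      unfold W AA
      rw [show (((aa K p.1 + aa K p.2 : ℕ) : ℝ) * τ) = aa K p.1 * τ + aa K p.2 * τ by push_cast; ring,
        show (((p.1 + p.2 : ℕ) : ℝ) * θ) = p.1 * θ + p.2 * θ by push_cast; ring]
      rw [e_add, e_add, e_add, e_add]
      push_cast
      ring
    rw [h2]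
    have h3 : ∀ p ∈ Icc 1 K ×ˢ Icc 1 K, p.1 + p.2 ∈ range (2 * K + 1) := by
      intro p hp
      rw [mem_product, mem_Icc, mem_Icc] at hp
      rw [mem_range]
      omega
    rw [← sum_fiberwise_of_maps_to h3]
    refine sum_congr rfl fun s _ => ?_
    unfold bb
    rw [sum_mul]
    refine sum_congr rfl fun p hp => ?_
    rw [(mem_filter.1 hp).2]
  have h2 : ‖q K τ θ‖ ^ 2 ≤ ∑ s ∈ range (2 * K + 1), ‖bb K s τ‖ := by
    rw [← norm_pow, h1]
    refine (norm_sum_le _ _).trans (le_of_eq (sum_congr rfl fun s _ => ?_))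
    rw [norm_mul, norm_e, mul_one]
  have h3 : (∑ s ∈ range (2 * K + 1), ‖bb K s τ‖) ^ 2 ≤
      ((range (2 * K + 1)).card : ℝ) * ∑ s ∈ range (2 * K + 1), ‖bb K s τ‖ ^ 2 :=
    sq_sum_le_card_mul_sum_sq
  rw [card_range] at h3
  have h4 : ‖q K τ θ‖ ^ 4 = (‖q K τ θ‖ ^ 2) ^ 2 := by ring
  rw [h4]
  refine (pow_le_pow_left₀ (by positivity) h2 2).trans (h3.trans (le_of_eq ?_))
  unfold G
  push_cast
  rfl

lemma G_nonneg (K : ℕ) (τ : ℝ) : 0 ≤ G K τ := sum_nonneg fun _ _ => by positivity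

end Pool.Agent.V11294.FP
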