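import Pool.Agent.V11294.FP.Struct

/-!
# Products of coordinates of differences of dense planar sets
-/

set_option autoImplicit false

namespace Pool.Agent.V11294.FP

open Finset

lemma char_sum (M : ℕ) (hM : 0 < M) (u : ℤ) :
    ∑ x ∈ range M, e (u * x / M) = if (M : ℤ) ∣ u then (M : ℂ) else 0 := by
  have hM0 : (M : ℝ) ≠ 0 := by exact_mod_cast hM.ne'
  split_ifs with h
  · obtain ⟨c, rfl⟩ := h
    have h1 : ∀ x ∈ range M, e ((((M : ℤ) * c : ℤ) : ℝ) * x / M) = 1 := by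
      intro x _
      have h2 : (((M : ℤ) * c : ℤ) : ℝ) * x / M = ((c * x : ℤ) : ℝ) := by
        push_cast
        field_simp
      rw [h2, e_int]
    rw [sum_congr rfl h1]
    simp
  · have h1 : ∀ x ∈ range M, e (u * x / M) = e (u / M) ^ x := by
      intro x _
      rw [← e_nat_mul]
      congr 1
      ring
    rw [sum_congr rfl h1]
    have h2 : e ((u : ℝ) / M) ≠ 1 := by
      intro h3
      apply h
      unfold e at h3
      rw [Complex.exp_eq_one_iff] at h3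
      obtain ⟨k, hk⟩ := h3
      refine ⟨k, ?_⟩
      have h4 : ((2 * Real.pi * ((u : ℝ) / M) : ℝ) : ℂ) = ((k * (2 * Real.pi) : ℝ) : ℂ) := by
        have h5 : Complex.I * ((2 * Real.pi * ((u : ℝ) / M) : ℝ) : ℂ) =
            Complex.I * ((k * (2 * Real.pi) : ℝ) : ℂ) := by
          rw [hk]
          push_cast
          ring
        exact mul_left_cancel₀ Complex.I_ne_zero h5
      have h6 : 2 * Real.pi * ((u : ℝ) / M) = k * (2 * Real.pi) := by exact_mod_cast h4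
      have hpi := Real.pi_pos
      have h7 : (u : ℝ) / M = k := by
        have : 2 * Real.pi * ((u : ℝ) / M) = 2 * Real.pi * k := by rw [h6]; ring
        exact mul_left_cancel₀ (by positivity) this
      rw [div_eq_iff hM0] at h7
      have h8 : (u : ℝ) = ((M * k : ℤ) : ℝ) := by
        rw [h7]
        push_cast
        ring
      exact_mod_cast h8
    rw [geom_sum_eq h2, ← e_nat_mul]
    have h3 : (M : ℝ) * ((u : ℝ) / M) = ((u : ℤ) : ℝ) := by field_simp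
    rw [h3, e_int, sub_self, zero_div]

/-- the Fourier transform -/
noncomputable def S (M₁ M₂ : ℕ) (A : Finset (ℤ × ℤ)) (x y : ℕ) : ℂ :=
  ∑ p ∈ A, e (p.1 * x / M₁ + p.2 * y / M₂)

lemma corr (M₁ M₂ : ℕ) (h1 : 0 < M₁) (h2 : 0 < M₂) (A : Finset (ℤ × ℤ)) (u v : ℤ) :
    ∑ x ∈ range M₁, ∑ y ∈ range M₂, ((‖S M₁ M₂ A x y‖ ^ 2 : ℝ) : ℂ) * e (u * x / M₁ + v * y / M₂) =
      (M₁ : ℂ) * M₂ * (((A ×ˢ A).filter (fun r : (ℤ × ℤ) × (ℤ × ℤ) =>
        (M₁ : ℤ) ∣ r.1.1 - r.2.1 + u ∧ (M₂ : ℤ) ∣ r.1.2 - r.2.2 + v)).card : ℂ) := by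
  have h3 : ∀ x y : ℕ, ((‖S M₁ M₂ A x y‖ ^ 2 : ℝ) : ℂ) * e (u * x / M₁ + v * y / M₂) =
      ∑ r ∈ A ×ˢ A, e (((r.1.1 - r.2.1 + u : ℤ) : ℝ) * x / M₁) *
        e (((r.1.2 - r.2.2 + v : ℤ) : ℝ) * y / M₂) := by
    intro x y
    push_cast
    rw [← Complex.mul_conj']
    unfold S
    rw [map_sum, sum_mul_sum, ← sum_product', sum_mul]
    refine sum_congr rfl fun r _ => ?_
    rw [e_conj, ← e_add, ← e_add, ← e_add]
    congr 1
    ring
  rw [sum_congr rfl fun x _ => sum_congr rfl fun y _ => h3 x y]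
  rw [sum_congr rfl fun x _ => sum_comm, sum_comm]
  have h4 : ∀ r ∈ A ×ˢ A, ∑ x ∈ range M₁, ∑ y ∈ range M₂,
      e (((r.1.1 - r.2.1 + u : ℤ) : ℝ) * x / M₁) * e (((r.1.2 - r.2.2 + v : ℤ) : ℝ) * y / M₂) =
      if (M₁ : ℤ) ∣ r.1.1 - r.2.1 + u ∧ (M₂ : ℤ) ∣ r.1.2 - r.2.2 + v then (M₁ : ℂ) * M₂ else 0 := by
    intro r _
    rw [← sum_mul_sum, char_sum M₁ h1, char_sum M₂ h2]
    split_ifs with a b c d <;> simp_all
  rw [sum_congr rfl h4, ← sum_filter, sum_const, nsmul_eq_mul]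
  ring

theorem fin (ε : ℝ) (hε : 0 < ε) : ∃ K Lmax : ℕ, 1 ≤ K ∧ ∀ (m n : ℕ) (a b : ℤ)
    (A : Finset (ℤ × ℤ)), K.factorial * Lmax ≤ m → 1 ≤ m → 1 ≤ n →
    (∀ p ∈ A, a ≤ p.1 ∧ p.1 < a + m ∧ b ≤ p.2 ∧ p.2 < b + n) → ε * ((m : ℝ) * n) ≤ A.card →
    ∃ l : ℕ, 1 ≤ l ∧ l ≤ Lmax ∧ ∀ c : ℤ, (K : ℤ) * |c| ≤ n → ∃ i : ℕ, 1 ≤ i ∧ i ≤ K ∧
      ∃ p ∈ A, ∃ p' ∈ A, p'.1 - p.1 = l * aa K i ∧ p'.2 - p.2 = i * c := by
  classical
  set t := ε / 32 with ht
  have ht0 : 0 < t := by positivity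
  obtain ⟨K, hK⟩ := exists_nat_ge (max 1 (max (2 / t) (27 / (t ^ 4))))
  have hK1 : (1 : ℝ) ≤ K := (le_max_left _ _).trans hK
  have hK2 : 2 / t ≤ K := ((le_max_left _ _).trans (le_max_right _ _)).trans hK
  have hK3 : 27 / t ^ 4 ≤ K := ((le_max_right _ _).trans (le_max_right _ _)).trans hK
  obtain ⟨J, hJ⟩ := exists_nat_ge (max 1 (1 / t))
  have hJ1 : (1 : ℝ) ≤ J := (le_max_left _ _).trans hJ
  have hJ2 : 1 / t ≤ J := (le_max_right _ _).trans hJ
  have hK' : 1 ≤ K := by exact_mod_cast hK1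
  have hJ' : 1 ≤ J := by exact_mod_cast hJ1
  refine ⟨K, FF K ^ J * BB K ^ J, hK', fun m n a b A hm hm1 hn hbox hcard => ?_⟩
  set M₁ := 2 * m with hM₁
  set M₂ := 2 * n with hM₂
  have hM₁0 : 0 < M₁ := by omega
  have hM₂0 : 0 < M₂ := by omega
  set ν : ℕ → ℕ → ℝ := fun x y => ‖S M₁ M₂ A x y‖ ^ 2 with hν
  have hν0 : ∀ x y, 0 ≤ ν x y := fun x y => by positivity
  -- total mass
  have hV : ∑ x ∈ range M₁, ∑ y ∈ range M₂, ν x y = M₁ * M₂ * A.card := by
    have h := corr M₁ M₂ hM₁0 hM₂0 A 0 0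
    simp only [Int.cast_zero, zero_mul, zero_div, add_zero, e_zero, mul_one] at h
    have hc : ((A ×ˢ A).filter (fun r : (ℤ × ℤ) × (ℤ × ℤ) =>
        (M₁ : ℤ) ∣ r.1.1 - r.2.1 ∧ (M₂ : ℤ) ∣ r.1.2 - r.2.2)).card = A.card := by
      rw [← card_image_of_injective A (f := fun p => (p, p)) (fun p p' h => (Prod.mk.inj h).1)]
      congr 1
      ext r
      simp only [mem_filter, mem_product, mem_image]
      constructor
      · rintro ⟨⟨hr1, hr2⟩, d1, d2⟩
        refine ⟨r.1, hr1, ?_⟩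
        have b1 := hbox _ hr1
        have b2 := hbox _ hr2
        have e1 : r.1.1 - r.2.1 = 0 := by
          apply Int.eq_zero_of_abs_lt_dvd d1
          rw [abs_lt]
          push_cast [hM₁]
          constructor <;> omega
        have e2 : r.1.2 - r.2.2 = 0 := by
          apply Int.eq_zero_of_abs_lt_dvd d2
          rw [abs_lt]
          push_cast [hM₂]
          constructor <;> omega
        ext
        · rfl
        · rfl
        · show r.1.1 = r.2.1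
          omega
        · show r.1.2 = r.2.2
          omega
      · rintro ⟨p, hp, rfl⟩
        simp [hp]
    rw [hc] at h
    have h' : ((∑ x ∈ range M₁, ∑ y ∈ range M₂, ν x y : ℝ) : ℂ) = ((M₁ * M₂ * A.card : ℝ) : ℂ) := by
      push_cast
      rw [← h]
    exact_mod_cast h'
  obtain ⟨l, hl1, hl2, Bd, hBd0, hBd, hsum⟩ := choice K J hK' hJ' t ht0 (range M₁)
    (fun x => ∑ y ∈ range M₂, ν x y) (fun x => sum_nonneg fun y _ => hν0 x y)
    (fun x => (x : ℝ) / M₁)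
  refine ⟨l, hl1, hl2, fun c hc => ?_⟩
  by_contra hno
  push Not at hno
  -- the weighted sum vanishes
  have hzero : ∑ x ∈ range M₁, ∑ y ∈ range M₂, ν x y *
      (q K (l * ((x : ℝ) / M₁)) (c * y / M₂)).re = 0 := by
    have h1 : ∀ i ∈ Icc 1 K, ∑ x ∈ range M₁, ∑ y ∈ range M₂, ((ν x y : ℝ) : ℂ) *
        e (i * (c * y / M₂) + aa K i * (l * ((x : ℝ) / M₁))) = 0 := by
      intro i hi
      rw [mem_Icc] at hi
      have h := corr M₁ M₂ hM₁0 hM₂0 A ((l * aa K i : ℕ) : ℤ) (i * c)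
      have hc0 : ((A ×ˢ A).filter (fun r : (ℤ × ℤ) × (ℤ × ℤ) =>
          (M₁ : ℤ) ∣ r.1.1 - r.2.1 + ((l * aa K i : ℕ) : ℤ) ∧
          (M₂ : ℤ) ∣ r.1.2 - r.2.2 + (i * c))) = ∅ := by
        rw [Finset.eq_empty_iff_forall_notMem]
        intro r hr
        rw [mem_filter, mem_product] at hr
        obtain ⟨⟨hr1, hr2⟩, d1, d2⟩ := hr
        have b1 := hbox _ hr1
        have b2 := hbox _ hr2
        have hla : l * aa K i ≤ m := by
          calc l * aa K i ≤ (FF K ^ J * BB K ^ J) * K.factorial := Nat.mul_le_mul hl2 (aa_le K i)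
            _ = K.factorial * (FF K ^ J * BB K ^ J) := by ring
            _ ≤ m := hm
        have hla' : ((l * aa K i : ℕ) : ℤ) ≤ m := by exact_mod_cast hla
        have hla0 : (0 : ℤ) ≤ ((l * aa K i : ℕ) : ℤ) := by positivity
        have hic : |(i : ℤ) * c| ≤ n := by
          rw [abs_mul]
          have hi0 : |(i : ℤ)| = i := abs_of_nonneg (by positivity)
          rw [hi0]
          refine le_trans ?_ hc
          apply mul_le_mul_of_nonneg_right _ (abs_nonneg c)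
          exact_mod_cast hi.2
        rw [abs_le] at hic
        have e1 : r.1.1 - r.2.1 + ((l * aa K i : ℕ) : ℤ) = 0 := by
          apply Int.eq_zero_of_abs_lt_dvd d1
          rw [abs_lt]
          push_cast [hM₁]
          push_cast at hla' hla0
          constructor <;> omega
        have e2 : r.1.2 - r.2.2 + (i * c) = 0 := by
          apply Int.eq_zero_of_abs_lt_dvd d2
          rw [abs_lt]
          push_cast [hM₂]
          constructor <;> omega
        apply hno i hi.1 hi.2 r.1 hr1 r.2 hr2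
        · push_cast at e1
          linarith
        · linarith
      rw [hc0] at h
      simp only [card_empty, Nat.cast_zero, mul_zero] at h
      rw [← h]
      refine sum_congr rfl fun x _ => sum_congr rfl fun y _ => ?_
      congr 2
      push_cast
      ring
    have h2 : ∑ x ∈ range M₁, ∑ y ∈ range M₂, ((ν x y : ℝ) : ℂ) *
        q K (l * ((x : ℝ) / M₁)) (c * y / M₂) = 0 := by
      have h3 : ∀ x y : ℕ, ((ν x y : ℝ) : ℂ) * q K (l * ((x : ℝ) / M₁)) (c * y / M₂) =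
          ∑ i ∈ Icc 1 K, (w K i : ℂ) * (((ν x y : ℝ) : ℂ) *
            e (i * (c * y / M₂) + aa K i * (l * ((x : ℝ) / M₁)))) := by
        intro x y
        unfold q
        rw [mul_sum]
        refine sum_congr rfl fun i _ => ?_
        ring
      rw [sum_congr rfl fun x _ => sum_congr rfl fun y _ => h3 x y]
      rw [sum_congr rfl fun x _ => sum_comm, sum_comm]
      refine sum_eq_zero fun i hi => ?_
      rw [sum_congr rfl fun x _ => (mul_sum _ _ _).symm, ← mul_sum, h1 i hi, mul_zero]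
    have h4 := congrArg Complex.re h2
    rw [Complex.re_sum, Complex.zero_re] at h4
    rw [← h4]
    refine sum_congr rfl fun x _ => ?_
    rw [Complex.re_sum]
    refine sum_congr rfl fun y _ => ?_
    rw [Complex.re_ofReal_mul]
  -- the lower bound
  have hS0 : ν 0 0 = (A.card : ℝ) ^ 2 := by
    simp only [hν]
    unfold S
    have : ∀ p ∈ A, e ((p.1 : ℝ) * ((0 : ℕ) : ℝ) / M₁ + p.2 * ((0 : ℕ) : ℝ) / M₂) = 1 := by
      intro p _
      simp [e_zero]
    rw [sum_congr rfl this, sum_const, nsmul_eq_mul, mul_one, Complex.norm_natCast]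
  have hq0 : (q K (l * (((0 : ℕ) : ℝ) / M₁)) (c * ((0 : ℕ) : ℝ) / M₂)).re = 1 := by
    unfold q
    have : ∀ i ∈ Icc 1 K, (w K i : ℂ) * e (i * (c * ((0 : ℕ) : ℝ) / M₂) +
        aa K i * (l * (((0 : ℕ) : ℝ) / M₁))) = ((w K i : ℝ) : ℂ) := by
      intro i _
      simp [e_zero]
    rw [sum_congr rfl this, ← Complex.ofReal_sum, Complex.ofReal_re, sum_w K hK']
  have hlow : ν 0 0 ≤ ∑ x ∈ range M₁, (∑ y ∈ range M₂, ν x y) * Bd x := by
    have h1 : ∑ x ∈ range M₁, (∑ y ∈ range M₂, ν x y) * Bd x =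
        ∑ x ∈ range M₁, ∑ y ∈ range M₂, ν x y *
          ((q K (l * ((x : ℝ) / M₁)) (c * y / M₂)).re + Bd x) := by
      have h2 : ∀ x ∈ range M₁, ∑ y ∈ range M₂, ν x y *
          ((q K (l * ((x : ℝ) / M₁)) (c * y / M₂)).re + Bd x) =
          ∑ y ∈ range M₂, ν x y * (q K (l * ((x : ℝ) / M₁)) (c * y / M₂)).re +
            (∑ y ∈ range M₂, ν x y) * Bd x := by
        intro x _
        rw [sum_mul, ← sum_add_distrib]
        refine sum_congr rfl fun y _ => ?_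
        ring
      rw [sum_congr rfl h2, sum_add_distrib, hzero, zero_add]
    rw [h1]
    have h3 : ∀ x ∈ range M₁, ∀ y ∈ range M₂, 0 ≤ ν x y *
        ((q K (l * ((x : ℝ) / M₁)) (c * y / M₂)).re + Bd x) := by
      intro x hx y _
      apply mul_nonneg (hν0 x y)
      have := hBd x hx (c * y / M₂)
      linarith
    have h4 : ν 0 0 * ((q K (l * (((0 : ℕ) : ℝ) / M₁)) (c * ((0 : ℕ) : ℝ) / M₂)).re + Bd 0) ≤
        ∑ x ∈ range M₁, ∑ y ∈ range M₂, ν x y *
          ((q K (l * ((x : ℝ) / M₁)) (c * y / M₂)).re + Bd x) := by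
      have h5 := single_le_sum (f := fun x => ∑ y ∈ range M₂, ν x y *
          ((q K (l * ((x : ℝ) / M₁)) (c * y / M₂)).re + Bd x))
          (fun x hx => sum_nonneg fun y hy => h3 x hx y hy) (mem_range.2 hM₁0)
      have h6 := single_le_sum (f := fun y : ℕ => ν 0 y *
          ((q K (l * (((0 : ℕ) : ℝ) / M₁)) (c * y / M₂)).re + Bd 0))
          (fun y hy => h3 0 (mem_range.2 hM₁0) y hy) (mem_range.2 hM₂0)
      exact h6.trans h5
    rw [hq0] at h4
    refine le_trans ?_ h4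
    have := mul_nonneg (hν0 0 0) (hBd0 0)
    linarith
  -- the contradiction
  rw [hV] at hsum
  have hm0 : (1 : ℝ) ≤ m := by exact_mod_cast hm1
  have hn0 : (1 : ℝ) ≤ n := by exact_mod_cast hn
  have hA0 : (0 : ℝ) < A.card := lt_of_lt_of_le (by positivity) hcard
  have hcoef : 2 / (K : ℝ) + t + 27 / (K * t ^ 3) + 1 / J ≤ ε / 8 := by
    have c1 : 2 / (K : ℝ) ≤ t := by
      rw [div_le_iff₀ (by linarith)]
      rw [div_le_iff₀ ht0] at hK2
      linarith
    have c2 : 27 / ((K : ℝ) * t ^ 3) ≤ t := by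
      rw [div_le_iff₀ (by positivity)]
      rw [div_le_iff₀ (by positivity)] at hK3
      calc (27 : ℝ) ≤ K * t ^ 4 := hK3
        _ = t * (K * t ^ 3) := by ring
    have c3 : 1 / (J : ℝ) ≤ t := by
      rw [div_le_iff₀ (by linarith)]
      rw [div_le_iff₀ ht0] at hJ2
      linarith
    have : ε / 8 = 4 * t := by rw [ht]; ring
    rw [this]
    linarith
  have hM₁r : (M₁ : ℝ) = 2 * m := by rw [hM₁]; push_cast; ring
  have hM₂r : (M₂ : ℝ) = 2 * n := by rw [hM₂]; push_cast; ring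
  have hfin : (A.card : ℝ) ^ 2 ≤ ε / 8 * (M₁ * M₂ * A.card) := by
    rw [← hS0]
    refine hlow.trans (hsum.trans ?_)
    apply mul_le_mul_of_nonneg_right hcoef
    positivity
  rw [hM₁r, hM₂r] at hfin
  have h1 : (A.card : ℝ) ≤ ε / 2 * (m * n) := by
    have h2 : (A.card : ℝ) * A.card ≤ (ε / 2 * (m * n)) * A.card := by
      calc (A.card : ℝ) * A.card = (A.card : ℝ) ^ 2 := by ring
        _ ≤ _ := hfin
        _ = (ε / 2 * (m * n)) * A.card := by ring
    exact le_of_mul_le_mul_right h2 hA0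
  have h2 : 0 < ε * ((m : ℝ) * n) := by positivity
  linarith

theorem main (A : Set (ℕ × ℕ))
    (hA : ∃ ε : ℝ, 0 < ε ∧ ∀ N : ℕ, ∃ a b m n : ℕ, N ≤ m ∧ N ≤ n ∧
        ε * ((m : ℝ) * (n : ℝ)) ≤
          (({p : ℕ × ℕ | p ∈ A ∧ a ≤ p.1 ∧ p.1 < a + m ∧ b ≤ p.2 ∧ p.2 < b + n}.ncard : ℕ) : ℝ)) :
    ∃ H : AddSubgroup ℤ, H ≠ ⊥ ∧
        ∀ z ∈ H, ∃ p ∈ A, ∃ q ∈ A,
          (((p.1 : ℤ) - (q.1 : ℤ)) * ((p.2 : ℤ) - (q.2 : ℤ))) = z := by
  classical
  obtain ⟨ε, hε, hwin⟩ := hA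
  obtain ⟨K, Lmax, hK, hfin⟩ := fin ε hε
  by_contra hcon
  push Not at hcon
  have hbad : ∀ l : ℕ, 1 ≤ l → ∃ c : ℤ, ∀ p ∈ A, ∀ q ∈ A,
      (((p.1 : ℤ) - (q.1 : ℤ)) * ((p.2 : ℤ) - (q.2 : ℤ))) ≠ c * ((l * K.factorial : ℕ) : ℤ) := by
    intro l hl
    obtain ⟨z, hz, hz2⟩ := hcon (AddSubgroup.zmultiples ((l * K.factorial : ℕ) : ℤ)) (by
      rw [Ne, AddSubgroup.zmultiples_eq_bot]
      have : 0 < l * K.factorial := Nat.mul_pos hl (Nat.factorial_pos K)
      exact_mod_cast this.ne')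
    obtain ⟨c, hc⟩ := AddSubgroup.mem_zmultiples_iff.1 hz
    refine ⟨c, fun p hp q hq => ?_⟩
    have := hz2 p hp q hq
    rw [← hc] at this
    simpa using this
  choose! c hc using hbad
  obtain ⟨a, b, m, n, hm, hn, hcard⟩ := hwin
    (K.factorial * Lmax + K * (∑ l ∈ Finset.range (Lmax + 1), (c l).natAbs) + 1)
  set T : Set (ℕ × ℕ) := {p : ℕ × ℕ | p ∈ A ∧ a ≤ p.1 ∧ p.1 < a + m ∧ b ≤ p.2 ∧ p.2 < b + n} with hT
  have hTfin : T.Finite := by
    apply Set.Finite.subset ((Finset.range (a + m) ×ˢ Finset.range (b + n)).finite_toSet)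
    intro p hp
    rw [Finset.mem_coe, Finset.mem_product, Finset.mem_range, Finset.mem_range]
    exact ⟨hp.2.2.1, hp.2.2.2.2⟩
  set A₀ : Finset (ℤ × ℤ) := hTfin.toFinset.image (fun p : ℕ × ℕ => ((p.1 : ℤ), (p.2 : ℤ))) with hA₀
  have hinj : Function.Injective (fun p : ℕ × ℕ => ((p.1 : ℤ), (p.2 : ℤ))) := by
    intro p p' h
    have h1 := (Prod.mk.inj h).1
    have h2 := (Prod.mk.inj h).2
    ext
    · exact_mod_cast h1
    · exact_mod_cast h2
  have hcard₀ : A₀.card = T.ncard := by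
    rw [hA₀, Finset.card_image_of_injective _ hinj, Set.ncard_eq_toFinset_card T hTfin]
  have hbox : ∀ p ∈ A₀, (a : ℤ) ≤ p.1 ∧ p.1 < a + m ∧ (b : ℤ) ≤ p.2 ∧ p.2 < b + n := by
    intro p hp
    rw [hA₀, Finset.mem_image] at hp
    obtain ⟨p', hp', rfl⟩ := hp
    rw [Set.Finite.mem_toFinset] at hp'
    obtain ⟨_, h1, h2, h3, h4⟩ := hp'
    dsimp only
    refine ⟨?_, ?_, ?_, ?_⟩
    · exact_mod_cast h1
    · exact_mod_cast h2
    · exact_mod_cast h3
    · exact_mod_cast h4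
  obtain ⟨l, hl1, hl2, hl3⟩ := hfin m n a b A₀ (by omega) (by omega) (by omega) hbox (by
    rw [hcard₀]; exact hcard)
  obtain ⟨i, hi1, hi2, p, hp, p', hp', e1, e2⟩ := hl3 (c l) (by
    have h1 : (c l).natAbs ≤ ∑ l ∈ Finset.range (Lmax + 1), (c l).natAbs :=
      Finset.single_le_sum (f := fun l => (c l).natAbs) (fun _ _ => Nat.zero_le _)
        (Finset.mem_range.2 (by omega))
    have h2 : K * (c l).natAbs ≤ n := by
      have := Nat.mul_le_mul_left K h1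
      omega
    rw [← Int.natCast_natAbs]
    exact_mod_cast h2)
  rw [hA₀, Finset.mem_image] at hp hp'
  obtain ⟨r, hr, rfl⟩ := hp
  obtain ⟨r', hr', rfl⟩ := hp'
  rw [Set.Finite.mem_toFinset] at hr hr'
  apply hc l hl1 r' hr'.1 r hr.1
  dsimp only at e1 e2
  rw [e1, e2]
  have h3 := aa_mul K i hi1 hi2
  have h4 : ((aa K i : ℤ)) * i = K.factorial := by exact_mod_cast h3
  push_cast
  rw [← h4]
  ring

end Pool.Agent.V11294.FP
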