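import Pool.Agent.V11294.FP.Avg

/-!
# The choice of the dilation
-/

set_option autoImplicit false

namespace Pool.Agent.V11294.FP

open Finset

section

variable (K J : ℕ)

/-- a common multiple of all integers up to `2 K!` -/
def FF : ℕ := (2 * K.factorial).factorial

def BB : ℕ := 7 * FF K * K ^ 3 * K.factorial

def LL (j : ℕ) : ℕ := BB K ^ (J - j)

def DD (j : ℕ) : ℕ := FF K ^ j

noncomputable def kap (j : ℕ) : ℝ := (K : ℝ) ^ 2 / (LL K J j : ℝ)

noncomputable def bet (j : ℕ) : ℝ := 1 / (7 * (K : ℝ) * (K.factorial : ℝ) * (LL K J j : ℝ))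

def Str (j : ℕ) (ξ : ℝ) : Prop := nn (DD K j * ξ) ≤ bet K J j

def Mn (j : ℕ) (ξ : ℝ) : Prop :=
  ∀ c : ℤ, c ≠ 0 → |c| ≤ 2 * (K.factorial : ℤ) → kap K J j ≤ nn (c * (DD K j * ξ))

lemma FF_pos : 0 < FF K := Nat.factorial_pos _

variable {K J}

lemma BB_pos (hK : 1 ≤ K) : 0 < BB K := by
  have := FF_pos K
  have := Nat.factorial_pos K
  unfold BB
  positivity

lemma LL_pos (hK : 1 ≤ K) (j : ℕ) : 0 < LL K J j := pow_pos (BB_pos hK) _

lemma LL_succ (j : ℕ) (hj : j < J) : LL K J j = BB K * LL K J (j + 1) := by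
  unfold LL
  rw [← pow_succ']
  congr 1
  omega

lemma kap_le (hK : 1 ≤ K) (j : ℕ) (hj : j < J) : (FF K : ℝ) * kap K J j ≤ bet K J (j + 1) := by
  unfold kap bet
  rw [LL_succ j hj]
  have h1 : (0 : ℝ) < LL K J (j + 1) := by exact_mod_cast LL_pos hK (j + 1)
  have h2 : (0 : ℝ) < FF K := by exact_mod_cast FF_pos K
  have h3 : (0 : ℝ) < K.factorial := by exact_mod_cast Nat.factorial_pos K
  have h4 : (0 : ℝ) < K := by exact_mod_cast hK
  have h5 : ((BB K * LL K J (j + 1) : ℕ) : ℝ) =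
      7 * FF K * K ^ 3 * K.factorial * LL K J (j + 1) := by
    unfold BB
    push_cast
    ring
  rw [h5]
  apply le_of_eq
  field_simp

lemma bet_le (hK : 1 ≤ K) (j : ℕ) (hj : j < J) : (FF K : ℝ) * bet K J j ≤ bet K J (j + 1) := by
  unfold bet
  rw [LL_succ j hj]
  have h1 : (0 : ℝ) < LL K J (j + 1) := by exact_mod_cast LL_pos hK (j + 1)
  have h2 : (0 : ℝ) < FF K := by exact_mod_cast FF_pos K
  have h3 : (1 : ℝ) ≤ K.factorial := by exact_mod_cast Nat.factorial_pos K
  have h4 : (1 : ℝ) ≤ K := by exact_mod_cast hK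
  have h5 : ((BB K * LL K J (j + 1) : ℕ) : ℝ) =
      7 * FF K * K ^ 3 * K.factorial * LL K J (j + 1) := by
    unfold BB
    push_cast
    ring
  rw [h5, mul_one_div, div_le_div_iff₀ (by positivity) (by positivity)]
  have h6 : (1 : ℝ) ≤ 7 * K ^ 3 * K.factorial := by
    have a1 : (1 : ℝ) ≤ K ^ 3 := one_le_pow₀ h4
    nlinarith
  have h7 : 0 ≤ (FF K : ℝ) * (7 * K * K.factorial * LL K J (j + 1)) := by positivity
  nlinarith

lemma str_of_not_mn (hK : 1 ≤ K) (j : ℕ) (hj : j < J) (ξ : ℝ) (h : ¬ Mn K J j ξ) :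
    Str K J (j + 1) ξ := by
  unfold Mn at h
  push Not at h
  obtain ⟨c, hc0, hc, hlt⟩ := h
  have hdvd : c ∣ (FF K : ℤ) := by
    rw [← Int.natAbs_dvd_natAbs, Int.natAbs_natCast]
    apply Nat.dvd_factorial (Int.natAbs_pos.2 hc0)
    have : ((c.natAbs : ℕ) : ℤ) ≤ ((2 * K.factorial : ℕ) : ℤ) := by
      rw [Int.natCast_natAbs]
      push_cast
      exact hc
    exact_mod_cast this
  obtain ⟨d, hd⟩ := hdvd
  have hd1 : |(d : ℝ)| ≤ FF K := by
    have h1 : (1 : ℤ) ≤ |c| := Int.one_le_abs hc0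
    have h2 : |(FF K : ℤ)| = |c| * |d| := by rw [hd, abs_mul]
    have h3 : |d| ≤ (FF K : ℤ) := by
      have h4 : |(FF K : ℤ)| = (FF K : ℤ) := abs_of_nonneg (by positivity)
      rw [h4] at h2
      rw [h2]
      exact le_mul_of_one_le_left (abs_nonneg d) h1
    have : ((|d| : ℤ) : ℝ) ≤ ((FF K : ℤ) : ℝ) := by exact_mod_cast h3
    rw [Int.cast_abs] at this
    exact_mod_cast this
  unfold Str
  have h1 : (DD K (j + 1) : ℝ) * ξ = (d : ℝ) * ((c : ℝ) * (DD K j * ξ)) := by
    have h2 : (DD K (j + 1) : ℝ) = FF K * DD K j := by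
      unfold DD
      rw [pow_succ']
      push_cast
      ring
    have h3 : (FF K : ℝ) = c * d := by exact_mod_cast hd
    rw [h2, h3]
    ring
  rw [h1]
  refine (nn_int_mul d _).trans ?_
  calc |(d : ℝ)| * nn (c * (DD K j * ξ)) ≤ FF K * kap K J j :=
        mul_le_mul hd1 hlt.le (nn_nonneg _) (Nat.cast_nonneg _)
    _ ≤ _ := kap_le hK j hj

lemma str_succ (hK : 1 ≤ K) (j : ℕ) (hj : j < J) (ξ : ℝ) (h : Str K J j ξ) :
    Str K J (j + 1) ξ := by
  unfold Str at h ⊢
  have h1 : (DD K (j + 1) : ℝ) * ξ = ((FF K : ℤ) : ℝ) * (DD K j * ξ) := by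
    unfold DD
    rw [pow_succ']
    push_cast
    ring
  rw [h1]
  refine (nn_int_mul _ _).trans ?_
  have h2 : |((FF K : ℤ) : ℝ)| = FF K := by
    rw [abs_of_nonneg (by positivity)]
    norm_cast
  rw [h2]
  exact (mul_le_mul_of_nonneg_left h (Nat.cast_nonneg _)).trans (bet_le hK j hj)

lemma zone_unique (hK : 1 ≤ K) (j j' : ℕ) (hjj : j < j') (hj' : j' < J) (ξ : ℝ)
    (h : ¬ Mn K J j ξ) : Str K J j' ξ := by
  obtain ⟨d, rfl⟩ := Nat.exists_eq_add_of_lt hjj
  clear hjj
  induction d with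
  | zero => exact str_of_not_mn hK j (by omega) ξ h
  | succ d ih =>
    have := str_succ hK (j + d + 1) (by omega) ξ (ih (by omega))
    exact this

end

/-- the choice of the dilation `l` -/
theorem choice (K J : ℕ) (hK : 1 ≤ K) (hJ : 1 ≤ J) (t : ℝ) (ht : 0 < t) {ι : Type} (X : Finset ι)
    (N : ι → ℝ) (hN : ∀ x, 0 ≤ N x) (ξ : ι → ℝ) :
    ∃ l : ℕ, 1 ≤ l ∧ l ≤ FF K ^ J * BB K ^ J ∧ ∃ Bd : ι → ℝ, (∀ x, 0 ≤ Bd x) ∧
      (∀ x ∈ X, ∀ θ : ℝ, -(Bd x) ≤ (q K (l * ξ x) θ).re) ∧
      ∑ x ∈ X, N x * Bd x ≤ (2 / K + t + 27 / (K * t ^ 3) + 1 / J) * ∑ x ∈ X, N x := by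
  classical
  have hK0 : (1 : ℝ) ≤ K := by exact_mod_cast hK
  have hJ0 : (1 : ℝ) ≤ J := by exact_mod_cast hJ
  set V := ∑ x ∈ X, N x with hV
  have hV0 : 0 ≤ V := sum_nonneg fun x _ => hN x
  -- the scale
  obtain ⟨j, hj, hzone⟩ : ∃ j ∈ range J,
      ∑ x ∈ X, (if ¬ Str K J j (ξ x) ∧ ¬ Mn K J j (ξ x) then N x else 0) ≤ V / J := by
    apply exists_le_of_sum_le (s := range J) (g := fun _ => V / J) ⟨0, mem_range.2 hJ⟩
    rw [sum_const, card_range, nsmul_eq_mul, mul_div_cancel₀ _ (by positivity : (J : ℝ) ≠ 0),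
      sum_comm]
    refine sum_le_sum fun x _ => ?_
    rw [← sum_filter, sum_const, nsmul_eq_mul]
    have hc : ((range J).filter (fun j => ¬ Str K J j (ξ x) ∧ ¬ Mn K J j (ξ x))).card ≤ 1 := by
      rw [card_le_one]
      intro a ha b hb
      rw [mem_filter, mem_range] at ha hb
      rcases lt_trichotomy a b with h | h | h
      · exact absurd (zone_unique hK a b h hb.1 (ξ x) ha.2.2) hb.2.1
      · exact h
      · exact absurd (zone_unique hK b a h ha.1 (ξ x) hb.2.2) ha.2.1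
    have hc' : (((range J).filter (fun j => ¬ Str K J j (ξ x) ∧ ¬ Mn K J j (ξ x))).card : ℝ) ≤ 1 := by
      exact_mod_cast hc
    nlinarith [hN x]
  rw [mem_range] at hj
  set L := LL K J j with hL
  have hL0 : 0 < L := LL_pos hK j
  have hL0' : (0 : ℝ) < L := by exact_mod_cast hL0
  -- the dilation
  obtain ⟨l', hl', hrest⟩ : ∃ l' ∈ Icc 1 L,
      ∑ x ∈ X, (if Mn K J j (ξ x) then N x * G K (l' * (DD K j * ξ x)) else 0) ≤
        9 / (K : ℝ) ^ 2 * V := by
    apply exists_le_of_sum_le (s := Icc 1 L) (g := fun _ => 9 / (K : ℝ) ^ 2 * V)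
      ⟨1, mem_Icc.2 ⟨le_refl 1, hL0⟩⟩
    rw [sum_const, Nat.card_Icc, Nat.add_sub_cancel, nsmul_eq_mul, sum_comm]
    rw [show (L : ℝ) * (9 / (K : ℝ) ^ 2 * V) = ∑ x ∈ X, N x * (L * (9 / (K : ℝ) ^ 2)) by
      rw [← sum_mul, hV]; ring]
    refine sum_le_sum fun x _ => ?_
    by_cases hm : Mn K J j (ξ x)
    · simp only [if_pos hm]
      rw [← mul_sum]
      apply mul_le_mul_of_nonneg_left _ (hN x)
      have hkap : 0 < kap K J j := by
        unfold kap
        rw [← hL]
        positivity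
      refine (G_avg K hK L _ (kap K J j) hkap hm).trans (le_of_eq ?_)
      unfold kap
      rw [← hL]
      field_simp
      ring
    · simp only [if_neg hm, sum_const_zero]
      have := hN x
      positivity
  rw [mem_Icc] at hl'
  refine ⟨l' * DD K j, ?_, ?_, fun x => if Str K J j (ξ x) then (2 / (K : ℝ) : ℝ) else
    if Mn K J j (ξ x) then (t + (2 * K + 1) * G K (l' * (DD K j * ξ x)) / t ^ 3 : ℝ) else (1 : ℝ), ?_, ?_, ?_⟩
  · have : 0 < DD K j := pow_pos (FF_pos K) _
    exact Nat.mul_pos hl'.1 this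
  · have h1 : DD K j ≤ FF K ^ J := Nat.pow_le_pow_right (FF_pos K) (by omega)
    have h2 : l' ≤ BB K ^ J := by
      refine hl'.2.trans ?_
      rw [hL]
      unfold LL
      exact Nat.pow_le_pow_right (BB_pos hK) (by omega)
    rw [mul_comm]
    exact Nat.mul_le_mul h1 h2
  · intro x
    dsimp only
    have hG := G_nonneg K (l' * (DD K j * ξ x))
    split_ifs <;> positivity
  · intro x _ θ
    have hτ : ((l' * DD K j : ℕ) : ℝ) * ξ x = l' * (DD K j * ξ x) := by
      push_cast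
      ring
    rw [hτ]
    dsimp only
    split_ifs with h1 h2
    · have h3 : -(1 / (K : ℝ) + 1 / K) ≤ (q K (l' * (DD K j * ξ x)) θ).re := by
        apply q_struct K hK
        intro i hi1 hi2
        unfold Str at h1
        have h4 : (aa K i : ℝ) * (l' * (DD K j * ξ x)) =
            ((aa K i * l' : ℕ) : ℤ) * (DD K j * ξ x) := by
          push_cast
          ring
        rw [h4, e_round]
        refine (norm_e_sub_one_le _).trans ?_
        have h5 : |((aa K i * l' : ℕ) : ℤ) * (DD K j * ξ x) -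
            round (((aa K i * l' : ℕ) : ℤ) * (DD K j * ξ x))| =
            nn (((aa K i * l' : ℕ) : ℤ) * (DD K j * ξ x)) := rfl
        rw [h5]
        have h6 := nn_int_mul ((aa K i * l' : ℕ) : ℤ) (DD K j * ξ x)
        have h7 : |((((aa K i * l' : ℕ) : ℤ)) : ℝ)| ≤ K.factorial * L := by
          have h8 : ((((aa K i * l' : ℕ) : ℤ)) : ℝ) = aa K i * l' := by push_cast; ring
          rw [h8, abs_of_nonneg (by positivity)]
          have a1 : (aa K i : ℝ) ≤ K.factorial := by exact_mod_cast aa_le K i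
          have a2 : (l' : ℝ) ≤ L := by exact_mod_cast hl'.2
          exact mul_le_mul a1 a2 (by positivity) (by positivity)
        have hf : (0 : ℝ) < K.factorial := by exact_mod_cast Nat.factorial_pos K
        calc 7 * nn (((aa K i * l' : ℕ) : ℤ) * (DD K j * ξ x))
            ≤ 7 * (K.factorial * L * bet K J j) := by
              apply mul_le_mul_of_nonneg_left _ (by norm_num)
              exact h6.trans (mul_le_mul h7 h1 (nn_nonneg _) (by positivity))
          _ = 1 / K := by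
              unfold bet
              rw [← hL]
              field_simp
      have h4 : -(2 / (K : ℝ)) = -(1 / (K : ℝ) + 1 / K) := by ring
      rw [h4]
      exact h3
    · set z := q K (l' * (DD K j * ξ x)) θ with hz
      have h3 := q_pow_four K (l' * (DD K j * ξ x)) θ
      rw [← hz] at h3
      have h4 : ‖z‖ ≤ t + ‖z‖ ^ 4 / t ^ 3 := by
        rcases le_or_gt ‖z‖ t with h | h
        · have : 0 ≤ ‖z‖ ^ 4 / t ^ 3 := by positivity
          linarith
        · have h5 : ‖z‖ ≤ ‖z‖ ^ 4 / t ^ 3 := by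
            rw [le_div_iff₀ (by positivity)]
            have h6 : t ^ 3 ≤ ‖z‖ ^ 3 := pow_le_pow_left₀ ht.le h.le 3
            calc ‖z‖ * t ^ 3 ≤ ‖z‖ * ‖z‖ ^ 3 := mul_le_mul_of_nonneg_left h6 (norm_nonneg _)
              _ = ‖z‖ ^ 4 := by ring
          linarith
      have h5 : ‖z‖ ^ 4 / t ^ 3 ≤ (2 * K + 1) * G K (l' * (DD K j * ξ x)) / t ^ 3 := by
        gcongr
      have h6 := (abs_le.1 (Complex.abs_re_le_norm z)).1
      linarith
    · have h3 := norm_q_le K hK (l' * (DD K j * ξ x)) θ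
      have h6 := (abs_le.1 (Complex.abs_re_le_norm (q K (l' * (DD K j * ξ x)) θ))).1
      linarith
  · have h1 : ∀ x ∈ X, N x * (if Str K J j (ξ x) then (2 / (K : ℝ) : ℝ) else
        if Mn K J j (ξ x) then (t + (2 * K + 1) * G K (l' * (DD K j * ξ x)) / t ^ 3 : ℝ)
          else (1 : ℝ)) ≤
        N x * (2 / K) + N x * t + (3 * K / t ^ 3) *
          (if Mn K J j (ξ x) then N x * G K (l' * (DD K j * ξ x)) else 0) +
        (if ¬ Str K J j (ξ x) ∧ ¬ Mn K J j (ξ x) then N x else 0) := by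
      intro x _
      have hx := hN x
      have hG := G_nonneg K (l' * (DD K j * ξ x))
      have a1 : 0 ≤ N x * (2 / K) := by positivity
      have a2 : 0 ≤ N x * t := by positivity
      have a3 : 0 ≤ (3 * K / t ^ 3) *
          (if Mn K J j (ξ x) then N x * G K (l' * (DD K j * ξ x)) else 0) := by
        apply mul_nonneg (by positivity)
        split_ifs
        · positivity
        · exact le_refl 0
      have a4 : 0 ≤ (if ¬ Str K J j (ξ x) ∧ ¬ Mn K J j (ξ x) then N x else 0) := by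
        split_ifs
        · exact hx
        · exact le_refl 0
      by_cases hs : Str K J j (ξ x)
      · rw [if_pos hs]
        linarith
      · rw [if_neg hs]
        by_cases hm : Mn K J j (ξ x)
        · simp only [if_pos hm] at a3 ⊢
          have h2 : (2 * (K : ℝ) + 1) * G K (l' * (DD K j * ξ x)) / t ^ 3 ≤
              (3 * K / t ^ 3) * G K (l' * (DD K j * ξ x)) := by
            rw [div_mul_eq_mul_div]
            apply div_le_div_of_nonneg_right _ (by positivity)
            apply mul_le_mul_of_nonneg_right _ hG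
            linarith
          have h3 := mul_le_mul_of_nonneg_left h2 hx
          nlinarith
        · have hsm : ¬ Str K J j (ξ x) ∧ ¬ Mn K J j (ξ x) := ⟨hs, hm⟩
          rw [if_pos hsm] at a4 ⊢
          simp only [if_neg hm, mul_one, mul_zero]
          linarith
    refine (sum_le_sum h1).trans ?_
    rw [sum_add_distrib, sum_add_distrib, sum_add_distrib, ← sum_mul, ← sum_mul, ← mul_sum]
    have h2 := mul_le_mul_of_nonneg_left hrest (by positivity : (0 : ℝ) ≤ 3 * K / t ^ 3)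
    have h3 : 3 * (K : ℝ) / t ^ 3 * (9 / (K : ℝ) ^ 2 * V) = 27 / (K * t ^ 3) * V := by
      field_simp
      ring
    rw [h3] at h2
    have h4 : V / J = 1 / J * V := by ring
    rw [h4] at hzone
    rw [← hV]
    linarith

end Pool.Agent.V11294.FP
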